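import Pool.Agent.W104.Irr.Path5
import Pool.Agent.Y937.Irr.Brm

/-!
# Trees whose irregularity strength equals the number of leaves: every single order

Chartrand's question in a form which decides every order `N` separately: for `p ≥ 2` leaves and any
order `N ≥ max 3 (p + 1)`, all trees of order exactly `N` with exactly `p` leaves have irregularity
strength `p` if and only if `N ≤ 4` (for `p = 2`), `N ≤ 2 p + 1` (for `p ≥ 3`). Above the threshold
the trees fail badly: at every order `N ≥ p + 1` there is a tree with `p` leaves all of whose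
irregular weightings have a weight `≥ (N - 1) / 2`.
-/

namespace Pool.Agent.Results.MP_033e98_co.EveryOrder

open Pool.Agent.Helper999.Irr Pool.Agent.Y937.Irr

/-- `AllStrength p N`: every tree of order exactly `N` with exactly `p` leaves has irregularity
strength `p`. -/
def AllStrength (p N : ℕ) : Prop :=
  ∀ (V : Type) [Fintype V] (T : SimpleGraph V), T.IsTree → Fintype.card V = N →
    leafCount T = p → strength T = p

/-- If the strength is positive it is attained by an irregular weighting. -/
theorem exists_weighting {V : Type} [Fintype V] (T : SimpleGraph V) {p : ℕ} (hp : 1 ≤ p)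
    (h : strength T = p) : ∃ w : Sym2 V → ℕ, IsIrregular T w ∧ ∀ e ∈ T.edgeSet, w e ≤ p := by
  have hne : {k : ℕ | ∃ w : Sym2 V → ℕ, IsIrregular T w ∧ ∀ e ∈ T.edgeSet, w e ≤ k}.Nonempty := by
    by_contra hcon
    rw [Set.not_nonempty_iff_eq_empty] at hcon
    unfold strength at h
    rw [hcon, Nat.sInf_empty] at h
    omega
  have hmem := Nat.sInf_mem hne
  have hs' : sInf {k : ℕ | ∃ w : Sym2 V → ℕ, IsIrregular T w ∧ ∀ e ∈ T.edgeSet, w e ≤ k} = p := h
  rw [hs'] at hmem
  exact hmem

/-- At every order `N ≥ p + 1` there is a tree with `p` leaves of which every irregular weighting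
has a weight at least `(N - 1) / 2`. -/
theorem broom_at (p N : ℕ) (hp : 2 ≤ p) (hN : p + 1 ≤ N) :
    ∃ T : SimpleGraph (Fin N), T.IsTree ∧ leafCount T = p ∧
      ∀ (w : Sym2 (Fin N) → ℕ) (k : ℕ), IsIrregular T w → (∀ e ∈ T.edgeSet, w e ≤ k) →
        N ≤ 2 * k + 1 := by
  obtain ⟨m, rfl⟩ : ∃ m, N = m + p + 1 := ⟨N - p - 1, by omega⟩
  refine ⟨brm m p, brm_tree m p, brm_leafCount m p hp, ?_⟩
  intro w k hw hk
  have := brm_weight m p (by omega) k w hw hk
  omega

/-- The trees of order exactly `N` with exactly `p` leaves all have strength `p` iff `N` is at most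
the threshold. -/
theorem every_order (p N : ℕ) (hp : 2 ≤ p) (h3 : 3 ≤ N) (hN : p + 1 ≤ N) :
    AllStrength p N ↔ N ≤ if p = 2 then 4 else 2 * p + 1 := by
  constructor
  · intro h
    obtain ⟨T, hT, hl, hw⟩ := broom_at p N hp hN
    obtain ⟨w, hw1, hw2⟩ := exists_weighting T (by omega)
      (h (Fin N) T hT (Fintype.card_fin N) hl)
    have h4 := hw w p hw1 hw2
    by_cases hp2 : p = 2
    · subst hp2
      rw [if_pos rfl]
      by_contra hcon
      have h5 : N = 5 := by omega
      subst h5
      exact Pool.Agent.W104.Irr.p5_strength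
        (h (Fin 5) _ Pool.Agent.W104.Irr.p5_tree (by simp) Pool.Agent.W104.Irr.p5_leaf)
    · rw [if_neg hp2]
      omega
  · intro h V _ T hT hV hl
    classical
    by_cases hp2 : p = 2
    · subst hp2
      rw [if_pos rfl] at h
      exact Pool.Agent.W104.Irr.good_two V T hT (by omega) (by omega) hl
    · rw [if_neg hp2] at h
      exact Pool.Agent.W104.Irr.strength_exact T hT p (by omega) hl (by omega)

/-- **Chartrand's question, every order.** Let `p ≥ 2`.
(1) For every `N ≥ max 3 (p + 1)`, all trees of order exactly `N` with exactly `p` leaves have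
irregularity strength `p` if and only if `N ≤ 4` (`p = 2`), `N ≤ 2 p + 1` (`p ≥ 3`).
(2) At every order `N ≥ p + 1` some tree with exactly `p` leaves has in each of its irregular
weightings a weight `k` with `N ≤ 2 k + 1`; so for fixed `p` the strength of these trees tends to
infinity with `N`, and it is larger than `p` as soon as `N ≥ 2 p + 2`.
(3) The answer to the question: the largest `N` such that every tree with exactly `p` leaves and
order at least `3` and at most `N` has strength `p` is `4` for `p = 2` and `2 p + 1` for `p ≥ 3`. -/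
theorem result (p : ℕ) (hp : 2 ≤ p) :
    (∀ N : ℕ, 3 ≤ N → p + 1 ≤ N →
      ((∀ (V : Type) [Fintype V] (T : SimpleGraph V), T.IsTree → Fintype.card V = N →
        leafCount T = p → strength T = p) ↔ N ≤ if p = 2 then 4 else 2 * p + 1)) ∧
    (∀ N : ℕ, p + 1 ≤ N → ∃ T : SimpleGraph (Fin N), T.IsTree ∧ leafCount T = p ∧
      ∀ (w : Sym2 (Fin N) → ℕ) (k : ℕ), IsIrregular T w → (∀ e ∈ T.edgeSet, w e ≤ k) →
        N ≤ 2 * k + 1) ∧
    IsGreatest {N : ℕ | ∀ (V : Type) [Fintype V] (T : SimpleGraph V), T.IsTree →
      3 ≤ Fintype.card V → Fintype.card V ≤ N → leafCount T = p → strength T = p}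
      (if p = 2 then 4 else 2 * p + 1) := by
  refine ⟨fun N h3 hN => every_order p N hp h3 hN, fun N hN => broom_at p N hp hN, ?_, ?_⟩
  · intro V _ T hT h3 hV hl
    by_cases hp1 : p + 1 ≤ Fintype.card V
    · exact (every_order p (Fintype.card V) hp h3 hp1).2 hV V T hT rfl hl
    · by_cases hp2 : p = 2
      · omega
      · classical
        exact Pool.Agent.W104.Irr.strength_exact T hT p (by omega) hl (by omega)
  · intro N hN
    by_contra hcon
    have hle : 3 ≤ N ∧ p + 1 ≤ N := by
      split_ifs at hcon <;> omega
    refine hcon ((every_order p N hp hle.1 hle.2).1 ?_)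
    intro V _ T hT hV hl
    exact hN V T hT (by omega) (by omega) hl

end Pool.Agent.Results.MP_033e98_co.EveryOrder
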